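import Pool.Agent.H82.WC.Step

/-!
A non-straight continuum in the plane has Hausdorff dimension larger than one.
-/

open Set Filter Topology MeasureTheory
open scoped ENNReal NNReal

namespace Pool.Agent.H82.WC

theorem hausdorff_ne_zero (hbump : Bump) {A : Set ℂ} (hA : IsCompact A) (hAc : IsPreconnected A)
    (hn : A.Nontrivial) {e : ℝ} (he : 0 < e) (he1 : e ≤ 1)
    (hns : ∀ κ ⊆ A, IsCompact κ → IsPreconnected κ → ∀ x ∈ κ, ∀ y ∈ κ, x ≠ y →
      ∃ z ∈ κ, (1 + e) * dist x y ≤ dist x z + dist z y)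
    {s : ℝ} (hs : 1 ≤ s) (hs3 : (3 : ℝ) ^ (s - 1) ≤ (1 + e / 4) ^ s) :
    μH[s] A ≠ 0 := by
  classical
  intro hzero
  obtain ⟨x, hx, y, hy, hxy⟩ := hn
  have hs0 : 0 < s := by linarith
  have hxy0 : 0 < dist x y := dist_pos.2 hxy
  set c : ℝ := (e ^ 2 / 16 * dist x y) ^ s with hc
  have hc0 : 0 < c := Real.rpow_pos_of_pos (by positivity) _
  set k : ℝ := (3 : ℝ) ^ s with hk
  have hk0 : 0 < k := Real.rpow_pos_of_pos (by norm_num) _
  set ε : ℝ := c / (2 * (k + 1)) with hε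
  have hε0 : 0 < ε := by positivity
  have hεc : k * ε + ε < c := by
    have : k * ε + ε = c / 2 := by rw [hε]; field_simp
    linarith
  -- a cheap cover
  have h1 : ⨅ (t : ℕ → Set ℂ) (_ : A ⊆ ⋃ n, t n) (_ : ∀ n, Metric.ediam (t n) ≤ 1),
      ∑' n, ⨆ _ : (t n).Nonempty, Metric.ediam (t n) ^ s < ENNReal.ofReal ε := by
    have h2 := Measure.hausdorffMeasure_apply s A
    rw [hzero] at h2
    have h3 : ⨅ (t : ℕ → Set ℂ) (_ : A ⊆ ⋃ n, t n) (_ : ∀ n, Metric.ediam (t n) ≤ 1),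
        ∑' n, ⨆ _ : (t n).Nonempty, Metric.ediam (t n) ^ s ≤ 0 := by
      rw [h2]
      exact le_iSup₂ (f := fun (r : ℝ≥0∞) (_ : 0 < r) =>
        ⨅ (t : ℕ → Set ℂ) (_ : A ⊆ ⋃ n, t n) (_ : ∀ n, Metric.ediam (t n) ≤ r),
          ∑' n, ⨆ _ : (t n).Nonempty, Metric.ediam (t n) ^ s) 1 one_pos
    exact h3.trans_lt (ENNReal.ofReal_pos.2 hε0)
  simp only [iInf_lt_iff] at h1
  obtain ⟨t, htA, htd, hts⟩ := h1
  obtain ⟨η, hη0, hηs⟩ := ENNReal.exists_pos_sum_of_countable (ENNReal.ofReal_pos.2 hε0).ne' ℕ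
  set ρ : ℕ → ℝ := fun n => max (Metric.diam (t n)) (((η n : ℝ) ^ (1 / s)) / 3) with hρ
  have hρ0 : ∀ n, 0 < ρ n := fun n => lt_max_of_lt_right
    (div_pos (Real.rpow_pos_of_pos (NNReal.coe_pos.2 (hη0 n)) _) (by norm_num))
  have hcov : A ⊆ ⋃ n, Metric.thickening (ρ n) (t n) := htA.trans
    (iUnion_mono fun n => Metric.self_subset_thickening (hρ0 n) (t n))
  obtain ⟨F, hF⟩ := hA.elim_finite_subcover (fun n => Metric.thickening (ρ n) (t n))
    (fun n => Metric.isOpen_thickening) hcov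
  have hFne : F.Nonempty := by
    have := hF hx
    simp only [mem_iUnion] at this
    obtain ⟨i, hi, -⟩ := this
    exact ⟨i, hi⟩
  obtain ⟨i0, hi0, hmin⟩ := Finset.exists_min_image F (fun n => 3 * ρ n) hFne
  have hd0 : 0 < 3 * ρ i0 := mul_pos (by norm_num) (hρ0 i0)
  have hk1 : 1 - e / 8 < 1 := by linarith
  have hk1' : 0 ≤ 1 - e / 8 := by linarith
  obtain ⟨n, hn⟩ := exists_pow_lt_of_lt_one (div_pos hd0 hxy0) hk1
  have hU : ∀ i ∈ F, ∀ u ∈ Metric.thickening (ρ i) (t i), ∀ v ∈ Metric.thickening (ρ i) (t i),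
      dist u v ≤ 3 * ρ i := by
    intro i _ u hu v hv
    rw [Metric.mem_thickening_iff] at hu hv
    obtain ⟨u', hu', huu⟩ := hu
    obtain ⟨v', hv', hvv⟩ := hv
    have hfin : Metric.ediam (t i) ≠ ∞ := ((htd i).trans_lt ENNReal.one_lt_top).ne
    have h4 : dist u' v' ≤ Metric.diam (t i) :=
      Metric.dist_le_diam_of_mem' hfin hu' hv'
    have h5 : Metric.diam (t i) ≤ ρ i := le_max_left _ _
    have h6 := dist_triangle4 u u' v' v
    have h7 : dist v' v = dist v v' := dist_comm _ _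
    linarith
  have hmain := cover_bound hbump he he1 hns hs hs3 F (fun n => Metric.thickening (ρ n) (t n))
    (fun n => 3 * ρ n) hd0 hmin hU n A subset_rfl hA hAc hF x hx y hy
    (by
      rw [lt_div_iff₀ hxy0] at hn
      exact hn.le)
    (F.filter fun i => (Metric.thickening (ρ i) (t i) ∩ A).Nonempty) (Finset.filter_subset _ _)
    (fun i hi h => Finset.mem_filter.2 ⟨hi, h⟩)
  set S := F.filter fun i => (Metric.thickening (ρ i) (t i) ∩ A).Nonempty with hS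
  have hterm : ∀ i ∈ S, ENNReal.ofReal ((3 * ρ i) ^ s) ≤
      ENNReal.ofReal k * (⨆ _ : (t i).Nonempty, Metric.ediam (t i) ^ s) + (η i : ℝ≥0∞) := by
    intro i hi
    obtain ⟨-, u, hu, -⟩ := Finset.mem_filter.1 hi
    rw [Metric.mem_thickening_iff] at hu
    obtain ⟨u', hu', -⟩ := hu
    have hne : (t i).Nonempty := ⟨u', hu'⟩
    have hfin : Metric.ediam (t i) ≠ ∞ := ((htd i).trans_lt ENNReal.one_lt_top).ne
    have h4 : (⨆ _ : (t i).Nonempty, Metric.ediam (t i) ^ s) = Metric.ediam (t i) ^ s := by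
      simp [hne]
    rw [h4]
    have h5 : Metric.ediam (t i) ^ s = ENNReal.ofReal (Metric.diam (t i) ^ s) := by
      rw [← ENNReal.ofReal_rpow_of_nonneg Metric.diam_nonneg hs0.le, Metric.diam,
        ENNReal.ofReal_toReal hfin]
    rw [h5, ← ENNReal.ofReal_mul hk0.le, ← ENNReal.ofReal_coe_nnreal, ← ENNReal.ofReal_add
      (mul_nonneg hk0.le (Real.rpow_nonneg Metric.diam_nonneg _)) (NNReal.coe_nonneg _)]
    apply ENNReal.ofReal_le_ofReal
    rw [Real.mul_rpow (by norm_num) (hρ0 i).le]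
    rcases le_total (Metric.diam (t i)) (((η i : ℝ) ^ (1 / s)) / 3) with h | h
    · have h6 : ρ i = ((η i : ℝ) ^ (1 / s)) / 3 := max_eq_right h
      rw [h6, ← Real.mul_rpow (by norm_num) (by positivity)]
      have h7 : 3 * ((η i : ℝ) ^ (1 / s) / 3) = (η i : ℝ) ^ (1 / s) := by ring
      rw [h7, ← Real.rpow_mul (NNReal.coe_nonneg _), one_div_mul_cancel hs0.ne', Real.rpow_one]
      have h8 : 0 ≤ k * Metric.diam (t i) ^ s :=
        mul_nonneg hk0.le (Real.rpow_nonneg Metric.diam_nonneg _)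
      linarith
    · have h6 : ρ i = Metric.diam (t i) := max_eq_left h
      rw [h6]
      have h7 : (0 : ℝ) ≤ (η i : ℝ) := NNReal.coe_nonneg _
      linarith
  have hsum : ENNReal.ofReal c ≤ ENNReal.ofReal k * ENNReal.ofReal ε + ENNReal.ofReal ε := by
    calc ENNReal.ofReal c ≤ ENNReal.ofReal (∑ i ∈ S, (3 * ρ i) ^ s) :=
          ENNReal.ofReal_le_ofReal hmain
      _ = ∑ i ∈ S, ENNReal.ofReal ((3 * ρ i) ^ s) := by
          rw [ENNReal.ofReal_sum_of_nonneg]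
          intro i _
          exact Real.rpow_nonneg (mul_nonneg (by norm_num) (hρ0 i).le) _
      _ ≤ ∑ i ∈ S, (ENNReal.ofReal k * (⨆ _ : (t i).Nonempty, Metric.ediam (t i) ^ s)
            + (η i : ℝ≥0∞)) := Finset.sum_le_sum hterm
      _ = ENNReal.ofReal k * ∑ i ∈ S, (⨆ _ : (t i).Nonempty, Metric.ediam (t i) ^ s)
            + ∑ i ∈ S, (η i : ℝ≥0∞) := by
          rw [Finset.sum_add_distrib, ← Finset.mul_sum]
      _ ≤ ENNReal.ofReal k * ENNReal.ofReal ε + ENNReal.ofReal ε := by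
          gcongr
          · exact (ENNReal.sum_le_tsum S).trans hts.le
          · exact (ENNReal.sum_le_tsum S).trans hηs.le
  rw [← ENNReal.ofReal_mul hk0.le, ← ENNReal.ofReal_add (mul_nonneg hk0.le hε0.le) hε0.le] at hsum
  have := (ENNReal.ofReal_le_ofReal_iff (by positivity)).1 hsum
  linarith

theorem one_lt_dimH' (hbump : Bump) {A : Set ℂ} (hA : IsCompact A) (hAc : IsPreconnected A)
    (hn : A.Nontrivial) {e : ℝ} (he : 0 < e)
    (hns : ∀ κ ⊆ A, IsCompact κ → IsPreconnected κ → ∀ x ∈ κ, ∀ y ∈ κ, x ≠ y →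
      ∃ z ∈ κ, (1 + e) * dist x y ≤ dist x z + dist z y) : 1 < dimH A := by
  set e' := min e 1 with he'
  have he0 : 0 < e' := lt_min he one_pos
  have he1 : e' ≤ 1 := min_le_right _ _
  have hee : e' ≤ e := min_le_left _ _
  have hns' : ∀ κ ⊆ A, IsCompact κ → IsPreconnected κ → ∀ x ∈ κ, ∀ y ∈ κ, x ≠ y →
      ∃ z ∈ κ, (1 + e') * dist x y ≤ dist x z + dist z y := by
    intro κ hκ hc hp x hx y hy hxy
    obtain ⟨z, hz, h⟩ := hns κ hκ hc hp x hx y hy hxy
    refine ⟨z, hz, le_trans ?_ h⟩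
    exact mul_le_mul_of_nonneg_right (by linarith) dist_nonneg
  have hlog3 : 0 < Real.log 3 := Real.log_pos (by norm_num)
  have hlog : 0 < Real.log (1 + e' / 4) := Real.log_pos (by linarith)
  set s : ℝ := 1 + Real.log (1 + e' / 4) / Real.log 3 with hs
  have hs1 : 1 < s := by
    have : 0 < Real.log (1 + e' / 4) / Real.log 3 := div_pos hlog hlog3
    linarith
  have hs3 : (3 : ℝ) ^ (s - 1) ≤ (1 + e' / 4) ^ s := by
    have h1 : s - 1 = Real.log (1 + e' / 4) / Real.log 3 := by rw [hs]; ring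
    have h2 : (3 : ℝ) ^ (s - 1) = 1 + e' / 4 := by
      rw [h1, Real.rpow_def_of_pos (by norm_num), mul_div_cancel₀ _ hlog3.ne',
        Real.exp_log (by linarith)]
    rw [h2]
    calc 1 + e' / 4 = (1 + e' / 4) ^ (1 : ℝ) := (Real.rpow_one _).symm
      _ ≤ (1 + e' / 4) ^ s := Real.rpow_le_rpow_of_exponent_le (by linarith) hs1.le
  have h := hausdorff_ne_zero hbump hA hAc hn he0 he1 hns' hs1.le hs3
  have hs0 : 0 ≤ s := by linarith
  have h' : μH[((⟨s, hs0⟩ : ℝ≥0) : ℝ)] A ≠ 0 := h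
  have h2 := le_dimH_of_hausdorffMeasure_ne_zero h'
  refine lt_of_lt_of_le ?_ h2
  have h3 : (1 : ℝ≥0) < ⟨s, hs0⟩ := hs1
  rw [← ENNReal.coe_one]
  exact ENNReal.coe_lt_coe.2 h3

end Pool.Agent.H82.WC
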