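import Pool.Agent.H90.WC.Zset

/-!
Continua in `K` are uniformly non-straight when `Z` is empty (problem MP_90715c_gt).
-/

open Matrix Set Filter Topology

namespace Pool.Agent.H90.WC

variable {Γ : Subgroup G} {K : Set (OnePoint ℂ)}

/-- Points of a thin ellipse are close to its axis. -/
lemma ellipse_im {v : ℂ} {e : ℝ} (h : ‖v + 1 / 2‖ + ‖v - 1 / 2‖ ≤ 1 + e) :
    v.im ^ 2 ≤ (2 * e + e ^ 2) / 4 := by
  have h1 : ‖(1 : ℂ) + 2 * v.im * Complex.I‖ ≤ 1 + e := by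
    have h2 : (1 : ℂ) + 2 * v.im * Complex.I = (v + 1 / 2) + (starRingEnd ℂ) (1 / 2 - v) := by
      apply Complex.ext
      · simp
        ring
      · simp
        ring
    rw [h2]
    refine (norm_add_le _ _).trans ?_
    rw [Complex.norm_conj, norm_sub_rev (1 / 2 : ℂ) v]
    exact h
  have h3 : ‖(1 : ℂ) + 2 * v.im * Complex.I‖ ^ 2 = 1 + 4 * v.im ^ 2 := by
    rw [← Complex.normSq_eq_norm_sq, Complex.normSq_apply]
    simp
    ring
  have h4 : ‖(1 : ℂ) + 2 * v.im * Complex.I‖ ^ 2 ≤ (1 + e) ^ 2 :=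
    pow_le_pow_left₀ (norm_nonneg _) h1 2
  rw [h3] at h4
  nlinarith

/-- The affine map `w ↦ a² w + m` as a matrix. -/
noncomputable def aff (a m : ℂ) (ha : a ≠ 0) : G :=
  ⟨!![a, m * a⁻¹; 0, a⁻¹], by
    rw [Matrix.det_fin_two_of]; simp [ha]⟩

lemma aff_11 (a m : ℂ) (ha : a ≠ 0) : aff a m ha 1 1 = a⁻¹ := rfl

lemma act_aff (a m : ℂ) (ha : a ≠ 0) (w : ℂ) :
    act (aff a m ha) (w : OnePoint ℂ) = ((a ^ 2 * w + m : ℂ) : OnePoint ℂ) := by
  have h00 : aff a m ha 0 0 = a := rfl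
  have h01 : aff a m ha 0 1 = m * a⁻¹ := rfl
  have h10 : aff a m ha 1 0 = 0 := rfl
  have h11 : aff a m ha 1 1 = a⁻¹ := rfl
  rw [act_coe_of_ne]
  · congr 1
    unfold mob
    rw [h00, h01, h10, h11]
    field_simp
    ring
  · rw [h10, h11]
    simp [ha]

/-- A straight continuum gives a crossing. -/
lemma crossing_of_straight {κ : Set ℂ} (hc : IsCompact κ) (hp : IsPreconnected κ) {x y : ℂ}
    (hx : x ∈ κ) (hy : y ∈ κ) (hxy : x ≠ y) {η : ℝ} (hη : 0 < η) (hη1 : η ≤ 1)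
    (hz : ∀ z ∈ κ, dist x z + dist z y ≤ (1 + η ^ 4) * dist x y) {T ε : ℝ} (hT : 0 < T)
    (hTη : T ≤ 1 / (2 * η)) (hεη : η ≤ ε) :
    ∃ κ' : Set ℂ, Crossing T ε κ' ∧ ∀ w ∈ κ', η * (y - x) * w + (x + y) / 2 ∈ κ := by
  have hyx : y - x ≠ 0 := sub_ne_zero.2 (Ne.symm hxy)
  have hηc : (η : ℂ) ≠ 0 := by exact_mod_cast hη.ne'
  set f : ℂ → ℂ := fun z => (z - (x + y) / 2) / (η * (y - x)) with hf
  have hfc : Continuous f := by
    rw [hf]
    fun_prop
  have hdiv : ∀ z, f z = ((z - (x + y) / 2) / (y - x)) / (η : ℝ) := by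
    intro z
    rw [hf]
    simp only
    field_simp
  have him : ∀ z ∈ κ, |(f z).im| ≤ η := by
    intro z hzκ
    set v : ℂ := (z - (x + y) / 2) / (y - x) with hv
    have hd : 0 < ‖y - x‖ := norm_pos_iff.2 hyx
    have h1 : ‖v + 1 / 2‖ = dist x z / ‖y - x‖ := by
      have : v + 1 / 2 = (z - x) / (y - x) := by
        rw [hv]
        field_simp
        ring
      rw [this, norm_div, dist_comm, dist_eq_norm]
    have h2 : ‖v - 1 / 2‖ = dist z y / ‖y - x‖ := by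
      have : v - 1 / 2 = (z - y) / (y - x) := by
        rw [hv]
        field_simp
        ring
      rw [this, norm_div, dist_eq_norm]
    have h3 : ‖v + 1 / 2‖ + ‖v - 1 / 2‖ ≤ 1 + η ^ 4 := by
      rw [h1, h2, ← add_div, div_le_iff₀ hd]
      have h4 := hz z hzκ
      rwa [dist_comm x y, dist_eq_norm y x] at h4
    have h4 := ellipse_im h3
    have h5 : v.im ^ 2 ≤ (η ^ 2) ^ 2 := by
      have h6 : η ^ 4 ≤ 1 := pow_le_one₀ hη.le hη1
      have h7 : 0 ≤ η ^ 4 := by positivity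
      nlinarith
    have h6 : |v.im| ≤ η ^ 2 := abs_le_of_sq_le_sq h5 (by positivity)
    rw [hdiv z, Complex.div_ofReal_im, abs_div, abs_of_pos hη, div_le_iff₀ hη]
    calc |v.im| ≤ η ^ 2 := h6
      _ = η * η := by ring
  obtain ⟨κ', hκ's, hκ'⟩ := crossing_of_connected (κ := f '' κ) (T := T) (ε := ε)
    (hc.image hfc) (hp.image _ hfc.continuousOn) hT
    (by
      refine ⟨_, ⟨x, hx, rfl⟩, ?_⟩
      have h1 : f x = ((-(1 / (2 * η)) : ℝ) : ℂ) := by
        rw [hf]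
        simp only
        push_cast
        field_simp
        ring
      rw [h1, Complex.ofReal_re]
      linarith)
    (by
      refine ⟨_, ⟨y, hy, rfl⟩, ?_⟩
      have h1 : f y = ((1 / (2 * η) : ℝ) : ℂ) := by
        rw [hf]
        simp only
        push_cast
        field_simp
        ring
      rw [h1, Complex.ofReal_re]
      exact hTη)
    (by
      rintro _ ⟨z, hzκ, rfl⟩ -
      exact (him z hzκ).trans hεη)
  refine ⟨κ', hκ', ?_⟩
  intro w hw
  obtain ⟨z, hzκ, rfl⟩ := hκ's hw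
  have : (η : ℂ) * (y - x) * f z + (x + y) / 2 = z := by
    rw [hf]
    simp only
    field_simp
    ring
  rw [this]
  exact hzκ

theorem nonstraight (h : Hyp Γ K) (hZ : Z Γ K = ∅) (R : ℝ) :
    ∃ e > (0 : ℝ), ∀ κ : Set ℂ, IsCompact κ → IsPreconnected κ →
      (∀ z ∈ κ, (z : OnePoint ℂ) ∈ K ∧ ‖z‖ ≤ R) → ∀ x ∈ κ, ∀ y ∈ κ, x ≠ y →
        ∃ z ∈ κ, (1 + e) * dist x y ≤ dist x z + dist z y := by
  by_contra hcon
  push Not at hcon
  obtain ⟨C, hC, hcoc⟩ := h.coc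
  set η : ℕ → ℝ := fun n => 1 / ((n : ℝ) + 1) with hη
  have hη0 : ∀ n, 0 < η n := fun n => by rw [hη]; positivity
  have hη1 : ∀ n, η n ≤ 1 := fun n => by
    rw [hη]
    simp only
    rw [div_le_one (by positivity)]
    have : (0 : ℝ) ≤ n := Nat.cast_nonneg n
    linarith
  have hηlim : Tendsto η atTop (𝓝 0) := tendsto_one_div_add_atTop_nhds_zero_nat
  choose κ hκc hκp hκK x hx y hy hxy hz using fun n => hcon (η n ^ 4) (pow_pos (hη0 n) 4)
  have hsq : ∀ n, ∃ a : ℂ, a ≠ 0 ∧ a ^ 2 = η n * (y n - x n) := by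
    intro n
    obtain ⟨a, ha⟩ := IsAlgClosed.exists_pow_nat_eq ((η n : ℂ) * (y n - x n)) two_pos
    refine ⟨a, ?_, ha⟩
    rintro rfl
    have h1 : (η n : ℂ) * (y n - x n) ≠ 0 :=
      mul_ne_zero (by exact_mod_cast (hη0 n).ne') (sub_ne_zero.2 (hxy n).symm)
    apply h1
    rw [← ha]
    simp
  choose a ha0 ha using hsq
  set M : ℕ → G := fun n => aff (a n) ((x n + y n) / 2) (ha0 n) with hM
  choose γ hγ hγC using fun n => hcoc (M n)
  -- the lower right entries tend to infinity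
  have hasq : Tendsto (fun n => ‖a n‖ ^ 2) atTop (𝓝 0) := by
    have h1 : Tendsto (fun n => η n * (2 * R)) atTop (𝓝 (0 * (2 * R))) := hηlim.mul_const _
    rw [zero_mul] at h1
    refine squeeze_zero (fun n => by positivity) (fun n => ?_) h1
    rw [← norm_pow, ha n, norm_mul, Complex.norm_real, Real.norm_of_nonneg (hη0 n).le]
    refine mul_le_mul_of_nonneg_left ?_ (hη0 n).le
    calc ‖y n - x n‖ ≤ ‖y n‖ + ‖x n‖ := norm_sub_le _ _
      _ ≤ R + R := add_le_add (hκK n _ (hy n)).2 (hκK n _ (hx n)).2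
      _ = 2 * R := by ring
  have hanorm : Tendsto (fun n => ‖a n‖) atTop (𝓝 0) := by
    have h1 := (Real.continuous_sqrt.tendsto 0).comp hasq
    rw [Real.sqrt_zero] at h1
    refine h1.congr fun n => ?_
    exact Real.sqrt_sq (norm_nonneg _)
  have hinf : Tendsto (fun n => ‖M n 1 1‖) atTop atTop := by
    have h1 : Tendsto (fun n => ‖a n‖) atTop (𝓝[>] 0) :=
      tendsto_nhdsWithin_iff.2 ⟨hanorm, Eventually.of_forall fun n => norm_pos_iff.2 (ha0 n)⟩
    refine h1.inv_tendsto_nhdsGT_zero.congr fun n => ?_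
    rw [hM]
    simp only
    rw [aff_11, norm_inv]
    rfl
  -- a limit along an ultrafilter
  obtain ⟨q, hqC, hq⟩ := hC.ultrafilter_le_nhds
    ((Ultrafilter.of (atTop : Filter ℕ)).map (fun n => γ n * M n))
    (by
      rw [le_principal_iff]
      exact Eventually.of_forall (f := ((Ultrafilter.of (atTop : Filter ℕ) : Ultrafilter ℕ) :
        Filter ℕ)) hγC)
  set 𝒰 : Ultrafilter ℕ := Ultrafilter.of (atTop : Filter ℕ) with h𝒰
  have h𝒰le : (𝒰 : Filter ℕ) ≤ atTop := Ultrafilter.of_le _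
  have hq' : Tendsto (fun n => γ n * M n) 𝒰 (𝓝 q) := hq
  have hinf' : Tendsto (fun n => ‖M n 1 1‖) 𝒰 atTop := hinf.mono_left h𝒰le
  have hγne : ∀ g : G, ∀ᶠ n in (𝒰 : Filter ℕ), γ n ≠ g := by
    intro g
    by_contra hne
    have h1 : ∃ᶠ n in (𝒰 : Filter ℕ), γ n = g := by
      intro hh
      exact hne hh
    have h2 : ∀ᶠ n in (𝒰 : Filter ℕ), γ n = g := Ultrafilter.frequently_iff_eventually.1 h1
    have h3 : Tendsto (fun n => g⁻¹ * (γ n * M n)) 𝒰 (𝓝 (g⁻¹ * q)) :=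
      ((continuous_const.mul continuous_id).tendsto q).comp hq'
    have h4 : Tendsto M 𝒰 (𝓝 (g⁻¹ * q)) := by
      refine h3.congr' ?_
      filter_upwards [h2] with n hn
      rw [hn, inv_mul_cancel_left]
    have h5 : Tendsto (fun n => ‖M n 1 1‖) 𝒰 (𝓝 ‖(g⁻¹ * q) 1 1‖) :=
      ((continuous_entry 1 1).norm.tendsto _).comp h4
    exact not_tendsto_nhds_of_tendsto_atTop hinf' _ h5
  have hqZ : q ∈ Z Γ K := by
    apply Z_of_approx
    intro T hT ε hε F hF U hU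
    have e1 : ∀ᶠ n in (𝒰 : Filter ℕ), ∀ g ∈ F, γ n ≠ g :=
      (eventually_all_finite hF).2 fun g _ => hγne g
    have e2 : ∀ᶠ n in (𝒰 : Filter ℕ), q⁻¹ * (γ n * M n) ∈ U := by
      have h3 : Tendsto (fun n => q⁻¹ * (γ n * M n)) 𝒰 (𝓝 (q⁻¹ * q)) :=
        ((continuous_const.mul continuous_id).tendsto q).comp hq'
      rw [inv_mul_cancel] at h3
      exact h3 hU
    have e3 : ∀ᶠ n in (𝒰 : Filter ℕ), η n < min ε (1 / (2 * T)) :=
      h𝒰le (hηlim.eventually_lt_const (lt_min hε (by positivity)))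
    obtain ⟨n, ⟨hn1, hn2⟩, hn3⟩ := ((e1.and e2).and e3).exists
    have hn4 : η n ≤ ε := (hn3.trans_le (min_le_left _ _)).le
    have hn5 : T ≤ 1 / (2 * η n) := by
      have h6 : η n ≤ 1 / (2 * T) := (hn3.trans_le (min_le_right _ _)).le
      rw [le_div_iff₀ (by positivity)] at h6
      rw [le_div_iff₀ (mul_pos two_pos (hη0 n))]
      linarith
    obtain ⟨κ', hκ', hκ'K⟩ := crossing_of_straight (hκc n) (hκp n) (hx n) (hy n) (hxy n) (hη0 n)
      (hη1 n) (fun z hzκ => (hz n z hzκ).le) hT hn5 hn4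
    refine ⟨γ n, hγ n, fun hF' => hn1 _ hF' rfl, q⁻¹ * (γ n * M n), hn2, κ', hκ', ?_⟩
    intro w hw
    have h7 : (γ n)⁻¹ * (q * (q⁻¹ * (γ n * M n))) = M n := by group
    rw [h7, hM]
    simp only
    rw [act_aff, ha n]
    exact (hκK n _ (hκ'K w hw)).1
  rw [hZ] at hqZ
  exact hqZ

end Pool.Agent.H90.WC
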