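import Pool.Agent.H82.WC.Dim
import Pool.Agent.H13.WC.Cut

/-!
A non-straight continuum in the plane has Hausdorff dimension larger than one.
-/

open Set Filter Topology

namespace Pool.Agent.H90.WC

theorem one_lt_dimH {A : Set ℂ} (hA : IsCompact A) (hAc : IsPreconnected A)
    (hn : A.Nontrivial) {e : ℝ} (he : 0 < e)
    (hns : ∀ κ ⊆ A, IsCompact κ → IsPreconnected κ → ∀ x ∈ κ, ∀ y ∈ κ, x ≠ y →
      ∃ z ∈ κ, (1 + e) * dist x y ≤ dist x z + dist z y) : 1 < dimH A :=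
  Pool.Agent.H82.WC.one_lt_dimH'
    (fun _ hc hp _ hx _ hr hy => bump hc hp hx hr hy) hA hAc hn he hns

end Pool.Agent.H90.WC
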