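import Mathlib

/-!
The splitting step for non-straight continua in the plane, and the combinatorial lower bound for
finite covers.
-/

open Set Filter Topology

namespace Pool.Agent.H82.WC

/-- Boundary bumping in a closed ball. -/
def Bump : Prop := ∀ κ : Set ℂ, IsCompact κ → IsPreconnected κ → ∀ x ∈ κ, ∀ r : ℝ, 0 < r →
  (∃ y ∈ κ, r ≤ dist x y) →
    ∃ κ' ⊆ κ, IsCompact κ' ∧ IsPreconnected κ' ∧ x ∈ κ' ∧ (∀ z ∈ κ', dist x z ≤ r) ∧
      ∃ y ∈ κ', dist x y = r

theorem bump0 (hbump : Bump) {κ : Set ℂ} (hc : IsCompact κ) (hp : IsPreconnected κ) {x : ℂ}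
    (hx : x ∈ κ) {r : ℝ} (hr : 0 ≤ r) (hy : ∃ y ∈ κ, r ≤ dist x y) :
    ∃ κ' ⊆ κ, IsCompact κ' ∧ IsPreconnected κ' ∧ x ∈ κ' ∧ (∀ z ∈ κ', dist x z ≤ r) ∧
      ∃ y ∈ κ', dist x y = r := by
  rcases hr.eq_or_lt with h | h
  · refine ⟨{x}, by simpa using hx, isCompact_singleton, isPreconnected_singleton, rfl, ?_,
      x, rfl, ?_⟩
    · intro z hz
      rw [mem_singleton_iff] at hz
      subst hz
      simpa using hr
    · simp [← h]
  · exact hbump κ hc hp x hx r h hy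

theorem step (hbump : Bump) {κ : Set ℂ} (hc : IsCompact κ) (hp : IsPreconnected κ) {x y : ℂ}
    (hx : x ∈ κ) (hy : y ∈ κ) {e : ℝ} (he : 0 < e) (he1 : e ≤ 1)
    (hz : ∃ z ∈ κ, (1 + e) * dist x y ≤ dist x z + dist z y) :
    ∃ (K : Fin 3 → Set ℂ) (p q : Fin 3 → ℂ), (∀ i, K i ⊆ κ) ∧ (∀ i, IsCompact (K i)) ∧
      (∀ i, IsPreconnected (K i)) ∧ (∀ i, p i ∈ K i) ∧ (∀ i, q i ∈ K i) ∧
      (∀ i, dist (p i) (q i) ≤ (1 - e / 8) * dist x y) ∧
      ((1 + e / 4) * dist x y ≤ ∑ i, dist (p i) (q i)) ∧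
      (∀ i j, i ≠ j → ∀ u ∈ K i, ∀ v ∈ K j, e ^ 2 / 16 * dist x y ≤ dist u v) := by
  obtain ⟨z0, hz0, hz0'⟩ := hz
  set r := dist x y with hr
  have hr0 : 0 ≤ r := dist_nonneg
  have hcont : ContinuousOn (fun z : ℂ => dist x z + dist z y) κ :=
    (Continuous.add (continuous_const.dist continuous_id)
      (continuous_id.dist continuous_const)).continuousOn
  have hivt := hp.intermediate_value hx hz0 hcont
  have hmem : (1 + e) * r ∈ Icc (dist x x + dist x y) (dist x z0 + dist z0 y) := by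
    refine ⟨?_, hz0'⟩
    rw [dist_self, zero_add, ← hr]
    nlinarith
  obtain ⟨z, hzκ, hzz⟩ := hivt hmem
  simp only at hzz
  have hyx : dist y x = r := by rw [dist_comm]
  have hzx : dist z x = dist x z := dist_comm _ _
  have hyz : dist y z = dist z y := dist_comm _ _
  have t1 : dist x z ≤ r + dist z y := by
    have := dist_triangle x y z
    rw [hyz] at this
    exact this
  have t2 : dist z y ≤ dist x z + r := by
    have := dist_triangle z x y
    rw [hzx] at this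
    exact this
  set a := (r + dist x z - dist z y) / 2 with ha
  set b := (r + dist z y - dist x z) / 2 with hb
  set d := e * r / 2 with hd
  have ha0 : 0 ≤ a := by rw [ha]; linarith
  have hb0 : 0 ≤ b := by rw [hb]; linarith
  have hd0 : 0 ≤ d := by rw [hd]; positivity
  have hab : a + b = r := by rw [ha, hb]; ring
  have had : a + d = dist x z := by rw [ha, hd]; linarith
  have hbd : b + d = dist z y := by rw [hb, hd]; linarith
  have hk : 0 ≤ 1 - e / 8 := by linarith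
  have hk1 : 1 - e / 8 ≤ 1 := by linarith
  obtain ⟨K0, hK0, hK0c, hK0p, hxK0, hK0r, q0, hq0, hq0r⟩ :=
    bump0 hbump hc hp hx (mul_nonneg hk ha0) ⟨y, hy, by rw [← hr]; nlinarith⟩
  obtain ⟨K1, hK1, hK1c, hK1p, hyK1, hK1r, q1, hq1, hq1r⟩ :=
    bump0 hbump hc hp hy (mul_nonneg hk hb0) ⟨x, hx, by rw [hyx]; nlinarith⟩
  obtain ⟨K2, hK2, hK2c, hK2p, hzK2, hK2r, q2, hq2, hq2r⟩ :=
    bump0 hbump hc hp hzκ (mul_nonneg hk hd0) ⟨x, hx, by rw [hzx, ← had]; nlinarith⟩
  have s01 : ∀ u ∈ K0, ∀ v ∈ K1, e ^ 2 / 16 * r ≤ dist u v := by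
    intro u hu v hv
    have h1 := hK0r u hu
    have h2 := hK1r v hv
    have h3 := dist_triangle4 x u v y
    have h4 : dist v y = dist y v := dist_comm _ _
    rw [← hr] at h3
    nlinarith [mul_nonneg he.le hr0, mul_nonneg (mul_nonneg he.le (sub_nonneg.2 he1)) hr0]
  have s02 : ∀ u ∈ K0, ∀ v ∈ K2, e ^ 2 / 16 * r ≤ dist u v := by
    intro u hu v hv
    have h1 := hK0r u hu
    have h2 := hK2r v hv
    have h3 := dist_triangle4 x u v z
    have h4 : dist v z = dist z v := dist_comm _ _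
    have h5 : 0 ≤ e * a := mul_nonneg he.le ha0
    have h6 : (e / 8) * d = e ^ 2 / 16 * r := by rw [hd]; ring
    have h7 : (1 - e / 8) * a + (1 - e / 8) * d + (e / 8) * a + (e / 8) * d = dist x z := by
      rw [← had]; ring
    have h8 : (e / 8) * a = e * a / 8 := by ring
    linarith
  have s12 : ∀ u ∈ K1, ∀ v ∈ K2, e ^ 2 / 16 * r ≤ dist u v := by
    intro u hu v hv
    have h1 := hK1r u hu
    have h2 := hK2r v hv
    have h3 := dist_triangle4 y u v z
    have h4 : dist v z = dist z v := dist_comm _ _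
    have h5 : 0 ≤ e * b := mul_nonneg he.le hb0
    have h6 : (e / 8) * d = e ^ 2 / 16 * r := by rw [hd]; ring
    have h7 : (1 - e / 8) * b + (1 - e / 8) * d + (e / 8) * b + (e / 8) * d = dist z y := by
      rw [← hbd]; ring
    have h8 : (e / 8) * b = e * b / 8 := by ring
    linarith
  refine ⟨![K0, K1, K2], ![x, y, z], ![q0, q1, q2], ?_, ?_, ?_, ?_, ?_, ?_, ?_, ?_⟩
  · intro i; fin_cases i
    exacts [hK0, hK1, hK2]
  · intro i; fin_cases i
    exacts [hK0c, hK1c, hK2c]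
  · intro i; fin_cases i
    exacts [hK0p, hK1p, hK2p]
  · intro i; fin_cases i
    exacts [hxK0, hyK1, hzK2]
  · intro i; fin_cases i
    exacts [hq0, hq1, hq2]
  · intro i; fin_cases i
    · show dist x q0 ≤ _
      rw [hq0r]
      exact mul_le_mul_of_nonneg_left (by linarith) hk
    · show dist y q1 ≤ _
      rw [hq1r]
      exact mul_le_mul_of_nonneg_left (by linarith) hk
    · show dist z q2 ≤ _
      rw [hq2r]
      refine mul_le_mul_of_nonneg_left ?_ hk
      rw [hd]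
      nlinarith
  · rw [Fin.sum_univ_three]
    show _ ≤ dist x q0 + dist y q1 + dist z q2
    rw [hq0r, hq1r, hq2r]
    have h1 : (1 - e / 8) * a + (1 - e / 8) * b + (1 - e / 8) * d
        = (1 - e / 8) * (r + e * r / 2) := by rw [← hab, hd, hab]; linear_combination (1 - e / 8) * hab
    rw [h1]
    nlinarith [mul_nonneg (mul_nonneg he.le (sub_nonneg.2 he1)) hr0, mul_nonneg he.le hr0]
  · intro i j hij
    fin_cases i <;> fin_cases j
    · exact absurd rfl hij
    · exact s01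
    · exact s02
    · intro u hu v hv
      rw [dist_comm]
      exact s01 v hv u hu
    · exact absurd rfl hij
    · exact s12
    · intro u hu v hv
      rw [dist_comm]
      exact s02 v hv u hu
    · intro u hu v hv
      rw [dist_comm]
      exact s12 v hv u hu
    · exact absurd rfl hij

/-- The lower bound for finite covers. -/
theorem cover_bound (hbump : Bump) {A : Set ℂ} {e : ℝ} (he : 0 < e) (he1 : e ≤ 1)
    (hns : ∀ κ ⊆ A, IsCompact κ → IsPreconnected κ → ∀ x ∈ κ, ∀ y ∈ κ, x ≠ y →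
      ∃ z ∈ κ, (1 + e) * dist x y ≤ dist x z + dist z y)
    {s : ℝ} (hs : 1 ≤ s) (hs3 : (3 : ℝ) ^ (s - 1) ≤ (1 + e / 4) ^ s)
    {ι : Type*} (F : Finset ι) (U : ι → Set ℂ) (D : ι → ℝ) {d0 : ℝ} (hd0 : 0 < d0)
    (hD : ∀ i ∈ F, d0 ≤ D i) (hU : ∀ i ∈ F, ∀ u ∈ U i, ∀ v ∈ U i, dist u v ≤ D i) (n : ℕ) :
    ∀ κ ⊆ A, IsCompact κ → IsPreconnected κ → κ ⊆ ⋃ i ∈ F, U i → ∀ x ∈ κ, ∀ y ∈ κ,
      (1 - e / 8) ^ n * dist x y ≤ d0 →
      ∀ S : Finset ι, S ⊆ F → (∀ i ∈ F, (U i ∩ κ).Nonempty → i ∈ S) →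
      (e ^ 2 / 16 * dist x y) ^ s ≤ ∑ i ∈ S, D i ^ s := by
  classical
  have hs0 : 0 < s := by linarith
  have hbig : ∀ κ ⊆ A, κ ⊆ ⋃ i ∈ F, U i → ∀ t : ℝ, 0 ≤ t → ∀ S : Finset ι, S ⊆ F →
      (∀ i ∈ F, (U i ∩ κ).Nonempty → i ∈ S) →
      (∃ i ∈ F, (U i ∩ κ).Nonempty ∧ t ≤ D i) → t ^ s ≤ ∑ i ∈ S, D i ^ s := by
    intro κ hκA hcov t ht S hSF hS ⟨i, hiF, hi, hti⟩
    have hiS := hS i hiF hi
    have h1 : t ^ s ≤ D i ^ s := Real.rpow_le_rpow ht hti hs0.le
    refine h1.trans (Finset.single_le_sum (f := fun i => D i ^ s) (fun j hj => ?_) hiS)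
    exact Real.rpow_nonneg (hd0.le.trans (hD j (hSF hj))) _
  have hmeet : ∀ κ : Set ℂ, κ ⊆ ⋃ i ∈ F, U i → ∀ x ∈ κ, ∃ i ∈ F, (U i ∩ κ).Nonempty := by
    intro κ hcov x hx
    have := hcov hx
    simp only [mem_iUnion] at this
    obtain ⟨i, hiF, hi⟩ := this
    exact ⟨i, hiF, x, hi, hx⟩
  induction n with
  | zero =>
    intro κ hκA hc hp hcov x hx y hy hd S hSF hS
    refine hbig κ hκA hcov _ (by positivity) S hSF hS ?_
    obtain ⟨i, hiF, hi⟩ := hmeet κ hcov x hx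
    refine ⟨i, hiF, hi, ?_⟩
    rw [pow_zero, one_mul] at hd
    have h1 : e ^ 2 / 16 * dist x y ≤ dist x y := by
      have : 0 ≤ dist x y := dist_nonneg
      nlinarith [mul_nonneg he.le this]
    exact h1.trans (hd.trans (hD i hiF))
  | succ n ih =>
    intro κ hκA hc hp hcov x hx y hy hd S hSF hS
    by_cases hxy : x = y
    · subst hxy
      rw [dist_self, mul_zero, Real.zero_rpow hs0.ne']
      exact Finset.sum_nonneg fun j hj =>
        Real.rpow_nonneg (hd0.le.trans (hD j (hSF hj))) _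
    by_cases hex : ∃ i ∈ F, (U i ∩ κ).Nonempty ∧ e ^ 2 / 16 * dist x y ≤ D i
    · exact hbig κ hκA hcov _ (by positivity) S hSF hS hex
    push Not at hex
    obtain ⟨K, p, q, hK, hKc, hKp, hpK, hqK, hle, hsum, hsep⟩ :=
      step hbump hc hp hx hy he he1 (hns κ hκA hc hp x hx y hy hxy)
    have hk : 0 ≤ 1 - e / 8 := by linarith
    set T : Fin 3 → Finset ι := fun j => S.filter fun i => (U i ∩ K j).Nonempty with hT
    have hTF : ∀ j, T j ⊆ F := fun j => (Finset.filter_subset _ _).trans hSF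
    have hTin : ∀ j, ∀ i ∈ F, (U i ∩ K j).Nonempty → i ∈ T j := by
      intro j i hiF hi
      rw [hT, Finset.mem_filter]
      exact ⟨hS i hiF (hi.mono (inter_subset_inter_right _ (hK j))), hi⟩
    have hdisj : ∀ j j', j ≠ j' → Disjoint (T j) (T j') := by
      intro j j' hjj
      rw [Finset.disjoint_left]
      intro i hi hi'
      rw [hT, Finset.mem_filter] at hi hi'
      obtain ⟨-, u, huU, huK⟩ := hi
      obtain ⟨hiS, v, hvU, hvK⟩ := hi'
      have h1 := hsep j j' hjj u huK v hvK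
      have h2 := hU i (hSF hiS) u huU v hvU
      have h3 := hex i (hSF hiS) ⟨u, huU, hK j huK⟩
      linarith
    have hch : ∀ j, (e ^ 2 / 16 * dist (p j) (q j)) ^ s ≤ ∑ i ∈ T j, D i ^ s := by
      intro j
      refine ih (K j) ((hK j).trans hκA) (hKc j) (hKp j) ((hK j).trans hcov) (p j) (hpK j)
        (q j) (hqK j) ?_ (T j) (hTF j) (hTin j)
      calc (1 - e / 8) ^ n * dist (p j) (q j)
          ≤ (1 - e / 8) ^ n * ((1 - e / 8) * dist x y) :=
            mul_le_mul_of_nonneg_left (hle j) (pow_nonneg hk n)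
        _ = (1 - e / 8) ^ (n + 1) * dist x y := by ring
        _ ≤ d0 := hd
    have h1 : ∑ j, ∑ i ∈ T j, D i ^ s ≤ ∑ i ∈ S, D i ^ s := by
      rw [← Finset.sum_biUnion (fun j _ j' _ hjj => hdisj j j' hjj)]
      refine Finset.sum_le_sum_of_subset_of_nonneg ?_ fun j hj _ =>
        Real.rpow_nonneg (hd0.le.trans (hD j (hSF hj))) _
      intro i hi
      rw [Finset.mem_biUnion] at hi
      obtain ⟨j, -, hi⟩ := hi
      exact (Finset.mem_filter.1 hi).1
    have h2 : ∑ j, (e ^ 2 / 16 * dist (p j) (q j)) ^ s ≤ ∑ i ∈ S, D i ^ s :=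
      (Finset.sum_le_sum fun j _ => hch j).trans h1
    refine le_trans ?_ h2
    have h3 := Real.rpow_sum_le_const_mul_sum_rpow_of_nonneg (s := (Finset.univ : Finset (Fin 3)))
      (f := fun j => dist (p j) (q j)) hs (fun j _ => dist_nonneg)
    have h4 : ((1 + e / 4) * dist x y) ^ s ≤ (∑ j, dist (p j) (q j)) ^ s :=
      Real.rpow_le_rpow (by positivity) hsum hs0.le
    have h5 : ((1 + e / 4) * dist x y) ^ s
        ≤ (3 : ℝ) ^ (s - 1) * ∑ j, dist (p j) (q j) ^ s := by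
      refine h4.trans (h3.trans_eq ?_)
      simp
    have h6 : (3 : ℝ) ^ (s - 1) * dist x y ^ s ≤ (3 : ℝ) ^ (s - 1) * ∑ j, dist (p j) (q j) ^ s := by
      refine le_trans ?_ h5
      rw [Real.mul_rpow (by positivity) dist_nonneg]
      exact mul_le_mul_of_nonneg_right hs3 (Real.rpow_nonneg dist_nonneg _)
    have h7 : dist x y ^ s ≤ ∑ j, dist (p j) (q j) ^ s :=
      le_of_mul_le_mul_left h6 (Real.rpow_pos_of_pos (by norm_num) _)
    calc (e ^ 2 / 16 * dist x y) ^ s = (e ^ 2 / 16) ^ s * dist x y ^ s :=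
          Real.mul_rpow (by positivity) dist_nonneg
      _ ≤ (e ^ 2 / 16) ^ s * ∑ j, dist (p j) (q j) ^ s :=
          mul_le_mul_of_nonneg_left h7 (Real.rpow_nonneg (by positivity) _)
      _ = ∑ j, (e ^ 2 / 16 * dist (p j) (q j)) ^ s := by
          rw [Finset.mul_sum]
          refine Finset.sum_congr rfl fun j _ => ?_
          rw [Real.mul_rpow (by positivity) dist_nonneg]

end Pool.Agent.H82.WC
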